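import Mathlib

set_option autoImplicit false

namespace Pool.Agent.Results.MP_68925f_co.NimSquares

open Finset

/-- The rules fixing the nim product: `m ⊗ n = m n` for `m = 2^(2^a)` and `n < m`,
`m ⊗ m = 3 m / 2` for `m = 2^(2^a)`, commutativity, associativity, and distributivity over
the nim sum (bitwise exclusive or). -/
structure IsNimProduct (mul : ℕ → ℕ → ℕ) : Prop where
  fermat_mul : ∀ a n : ℕ, n < 2 ^ (2 ^ a) → mul (2 ^ (2 ^ a)) n = 2 ^ (2 ^ a) * n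
  fermat_sq : ∀ a : ℕ, mul (2 ^ (2 ^ a)) (2 ^ (2 ^ a)) = 3 * 2 ^ (2 ^ a) / 2
  comm : ∀ x y : ℕ, mul x y = mul y x
  assoc : ∀ x y z : ℕ, mul (mul x y) z = mul x (mul y z)
  distrib : ∀ x y z : ℕ, mul x (y ^^^ z) = mul x y ^^^ mul x z

/-- The 2-kernel of an integer sequence. -/
def kernelTwo (s : ℕ → ℤ) : Set (ℕ → ℤ) :=
  {u | ∃ e r : ℕ, r < 2 ^ e ∧ u = fun n => s (2 ^ e * n + r)}

/-- A sequence is 2-regular if its 2-kernel generates a finitely generated `ℤ`-module. -/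
def TwoRegular (s : ℕ → ℤ) : Prop := (Submodule.span ℤ (kernelTwo s)).FG

/-! ### Bitwise preliminaries -/

lemma mul_xor_pow (e x y : ℕ) : 2 ^ e * (x ^^^ y) = 2 ^ e * x ^^^ 2 ^ e * y := by
  have := @Nat.shiftLeft_xor_distrib e x y
  simp only [Nat.shiftLeft_eq] at this
  rw [mul_comm, this, mul_comm x, mul_comm y]

lemma join (e x1 x0 : ℕ) (h : x0 < 2 ^ e) : 2 ^ e * x1 ^^^ x0 = 2 ^ e * x1 + x0 := by
  have hdiv : (2 ^ e * x1 ^^^ x0) / 2 ^ e = x1 := by
    rw [Nat.xor_div_two_pow, Nat.mul_div_cancel_left _ (by positivity), Nat.div_eq_of_lt h]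
    simp
  have hmod : (2 ^ e * x1 ^^^ x0) % 2 ^ e = x0 := by
    rw [Nat.xor_mod_two_pow, Nat.mul_mod_right, Nat.mod_eq_of_lt h]
    simp
  have := Nat.div_add_mod (2 ^ e * x1 ^^^ x0) (2 ^ e)
  rw [hdiv, hmod] at this
  exact this.symm

lemma split (e x : ℕ) : x = 2 ^ e * (x / 2 ^ e) ^^^ (x % 2 ^ e) := by
  rw [join _ _ _ (Nat.mod_lt _ (by positivity)), Nat.div_add_mod]

/-! ### Existence of the nim product -/

/-- The nim product read modulo `2^(2^a)`. -/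
def lev : ℕ → ℕ → ℕ → ℕ
  | 0, x, y => (x % 2) * (y % 2)
  | a + 1, x, y =>
    2 ^ (2 ^ a) * (lev a (x / 2 ^ (2 ^ a)) (y / 2 ^ (2 ^ a)) ^^^
        lev a (x / 2 ^ (2 ^ a)) (y % 2 ^ (2 ^ a)) ^^^
        lev a (x % 2 ^ (2 ^ a)) (y / 2 ^ (2 ^ a))) +
      (lev a (x % 2 ^ (2 ^ a)) (y % 2 ^ (2 ^ a)) ^^^
        lev a (lev a (x / 2 ^ (2 ^ a)) (y / 2 ^ (2 ^ a))) (2 ^ (2 ^ a) / 2))

lemma lev_succ (a x y : ℕ) : lev (a + 1) x y =
    2 ^ (2 ^ a) * (lev a (x / 2 ^ (2 ^ a)) (y / 2 ^ (2 ^ a)) ^^^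
        lev a (x / 2 ^ (2 ^ a)) (y % 2 ^ (2 ^ a)) ^^^
        lev a (x % 2 ^ (2 ^ a)) (y / 2 ^ (2 ^ a))) +
      (lev a (x % 2 ^ (2 ^ a)) (y % 2 ^ (2 ^ a)) ^^^
        lev a (lev a (x / 2 ^ (2 ^ a)) (y / 2 ^ (2 ^ a))) (2 ^ (2 ^ a) / 2)) := rfl

lemma pow_succ_pow (a : ℕ) : 2 ^ (2 ^ (a + 1)) = 2 ^ (2 ^ a) * 2 ^ (2 ^ a) := by
  rw [← pow_add, pow_succ]; ring_nf

lemma lev_lt (a : ℕ) : ∀ x y, lev a x y < 2 ^ (2 ^ a) := by
  induction a with
  | zero =>
    intro x y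
    simp only [lev]
    rcases Nat.mod_two_eq_zero_or_one x with hx | hx <;>
    rcases Nat.mod_two_eq_zero_or_one y with hy | hy <;> simp [hx, hy]
  | succ a ih =>
    intro x y
    rw [lev_succ, pow_succ_pow]
    have hA := Nat.xor_lt_two_pow (Nat.xor_lt_two_pow (ih (x / 2 ^ (2 ^ a)) (y / 2 ^ (2 ^ a)))
      (ih (x / 2 ^ (2 ^ a)) (y % 2 ^ (2 ^ a)))) (ih (x % 2 ^ (2 ^ a)) (y / 2 ^ (2 ^ a)))
    have hB := Nat.xor_lt_two_pow (ih (x % 2 ^ (2 ^ a)) (y % 2 ^ (2 ^ a)))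
      (ih (lev a (x / 2 ^ (2 ^ a)) (y / 2 ^ (2 ^ a))) (2 ^ (2 ^ a) / 2))
    revert hA hB
    generalize (lev a (x / 2 ^ (2 ^ a)) (y / 2 ^ (2 ^ a)) ^^^
        lev a (x / 2 ^ (2 ^ a)) (y % 2 ^ (2 ^ a)) ^^^
        lev a (x % 2 ^ (2 ^ a)) (y / 2 ^ (2 ^ a))) = A
    generalize (lev a (x % 2 ^ (2 ^ a)) (y % 2 ^ (2 ^ a)) ^^^
        lev a (lev a (x / 2 ^ (2 ^ a)) (y / 2 ^ (2 ^ a))) (2 ^ (2 ^ a) / 2)) = Bq
    intro hA hB
    nlinarith

lemma lev_comm (a : ℕ) : ∀ x y, lev a x y = lev a y x := by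
  induction a with
  | zero => intro x y; simp only [lev]; ring
  | succ a ih =>
    intro x y
    rw [lev_succ, lev_succ, ih (x / 2 ^ (2 ^ a)) (y / 2 ^ (2 ^ a)),
      ih (x / 2 ^ (2 ^ a)) (y % 2 ^ (2 ^ a)), ih (x % 2 ^ (2 ^ a)) (y / 2 ^ (2 ^ a)),
      ih (x % 2 ^ (2 ^ a)) (y % 2 ^ (2 ^ a))]
    rw [Nat.xor_assoc, Nat.xor_assoc, Nat.xor_comm (lev a (y % 2 ^ 2 ^ a) (x / 2 ^ 2 ^ a))]

lemma lev_div (a x y : ℕ) : lev (a + 1) x y / 2 ^ (2 ^ a) =
    (lev a (x / 2 ^ (2 ^ a)) (y / 2 ^ (2 ^ a)) ^^^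
        lev a (x / 2 ^ (2 ^ a)) (y % 2 ^ (2 ^ a)) ^^^
        lev a (x % 2 ^ (2 ^ a)) (y / 2 ^ (2 ^ a))) := by
  have hB := Nat.xor_lt_two_pow (lev_lt a (x % 2 ^ (2 ^ a)) (y % 2 ^ (2 ^ a)))
      (lev_lt a (lev a (x / 2 ^ (2 ^ a)) (y / 2 ^ (2 ^ a))) (2 ^ (2 ^ a) / 2))
  rw [lev_succ, Nat.mul_add_div (by positivity), Nat.div_eq_of_lt hB, add_zero]

lemma lev_mod (a x y : ℕ) : lev (a + 1) x y % 2 ^ (2 ^ a) =
    (lev a (x % 2 ^ (2 ^ a)) (y % 2 ^ (2 ^ a)) ^^^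
        lev a (lev a (x / 2 ^ (2 ^ a)) (y / 2 ^ (2 ^ a))) (2 ^ (2 ^ a) / 2)) := by
  have hB := Nat.xor_lt_two_pow (lev_lt a (x % 2 ^ (2 ^ a)) (y % 2 ^ (2 ^ a)))
      (lev_lt a (lev a (x / 2 ^ (2 ^ a)) (y / 2 ^ (2 ^ a))) (2 ^ (2 ^ a) / 2))
  rw [lev_succ, Nat.mul_add_mod, Nat.mod_eq_of_lt hB]

lemma eq_of_div_mod (e x y : ℕ) (h1 : x / 2 ^ e = y / 2 ^ e) (h2 : x % 2 ^ e = y % 2 ^ e) :
    x = y := by
  rw [← Nat.div_add_mod x (2 ^ e), ← Nat.div_add_mod y (2 ^ e), h1, h2]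

lemma lev_distrib (a : ℕ) : ∀ x y z, lev a x (y ^^^ z) = lev a x y ^^^ lev a x z := by
  induction a with
  | zero =>
    intro x y z
    simp only [lev]
    have h : (y ^^^ z) % 2 = (y % 2) ^^^ (z % 2) := by
      have := @Nat.xor_mod_two_pow y z 1
      simpa using this
    rw [h]
    rcases Nat.mod_two_eq_zero_or_one x with hx | hx <;>
    rcases Nat.mod_two_eq_zero_or_one y with hy | hy <;>
    rcases Nat.mod_two_eq_zero_or_one z with hz | hz <;> simp [hx, hy, hz]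
  | succ a ih =>
    intro x y z
    have ih' : ∀ x y z, lev a (x ^^^ y) z = lev a x z ^^^ lev a y z := by
      intro x y z
      rw [lev_comm a _ z, ih, lev_comm a z x, lev_comm a z y]
    apply eq_of_div_mod (2 ^ a)
    · rw [Nat.xor_div_two_pow, lev_div, lev_div, lev_div]
      simp only [Nat.xor_div_two_pow, Nat.xor_mod_two_pow, ih]
      ac_rfl
    · rw [Nat.xor_mod_two_pow, lev_mod, lev_mod, lev_mod]
      simp only [Nat.xor_div_two_pow, Nat.xor_mod_two_pow, ih, ih']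
      ac_rfl

lemma lev_distrib' (a : ℕ) (x y z : ℕ) : lev a (x ^^^ y) z = lev a x z ^^^ lev a y z := by
  rw [lev_comm a _ z, lev_distrib, lev_comm a z x, lev_comm a z y]

lemma lev_assoc (a : ℕ) : ∀ x y z, lev a (lev a x y) z = lev a x (lev a y z) := by
  induction a with
  | zero =>
    intro x y z
    simp only [lev]
    rcases Nat.mod_two_eq_zero_or_one x with hx | hx <;>
    rcases Nat.mod_two_eq_zero_or_one y with hy | hy <;>
    rcases Nat.mod_two_eq_zero_or_one z with hz | hz <;> simp [hx, hy, hz]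
  | succ a ih =>
    intro x y z
    have hh : ∀ u v w, lev a u (lev a v w) = lev a v (lev a u w) := by
      intro u v w
      rw [← ih, lev_comm a u v, ih]
    apply eq_of_div_mod (2 ^ a)
    · rw [lev_div, lev_div]
      simp only [lev_div, lev_mod, lev_distrib, lev_distrib', ih]
      simp only [lev_comm a _ (2 ^ 2 ^ a / 2), hh _ (2 ^ 2 ^ a / 2)]
      ac_rfl
    · rw [lev_mod, lev_mod]
      simp only [lev_div, lev_mod, lev_distrib, lev_distrib', ih]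
      simp only [lev_comm a _ (2 ^ 2 ^ a / 2), hh _ (2 ^ 2 ^ a / 2)]
      ac_rfl

lemma lev_zero (a x : ℕ) : lev a x 0 = 0 := by
  have h := lev_distrib a x 0 0
  rw [Nat.xor_self, Nat.xor_self] at h
  exact h

lemma lev_zero' (a x : ℕ) : lev a 0 x = 0 := by
  rw [lev_comm, lev_zero]

lemma lev_succ_eq {a x y : ℕ} (hx : x < 2 ^ (2 ^ a)) (hy : y < 2 ^ (2 ^ a)) :
    lev (a + 1) x y = lev a x y := by
  rw [lev_succ, Nat.div_eq_of_lt hx, Nat.div_eq_of_lt hy, Nat.mod_eq_of_lt hx,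
    Nat.mod_eq_of_lt hy, lev_zero, lev_zero, lev_zero', lev_zero']
  simp

lemma pow_mono {a b : ℕ} (h : a ≤ b) : 2 ^ (2 ^ a) ≤ 2 ^ (2 ^ b) :=
  Nat.pow_le_pow_right (by norm_num) (Nat.pow_le_pow_right (by norm_num) h)

lemma lev_eq {a b x y : ℕ} (hx : x < 2 ^ (2 ^ a)) (hy : y < 2 ^ (2 ^ a)) (h : a ≤ b) :
    lev b x y = lev a x y := by
  induction b, h using Nat.le_induction with
  | base => rfl
  | succ b hb ih =>
    rw [lev_succ_eq (lt_of_lt_of_le hx (pow_mono hb)) (lt_of_lt_of_le hy (pow_mono hb)), ih]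

lemma lt_pow_pow (n : ℕ) : n < 2 ^ (2 ^ n) :=
  lt_trans (Nat.lt_two_pow_self) (Nat.pow_lt_pow_right (by norm_num) Nat.lt_two_pow_self)

/-- The nim product. -/
def nimMul (x y : ℕ) : ℕ := lev (x + y) x y

lemma nimMul_eq {a x y : ℕ} (hx : x < 2 ^ (2 ^ a)) (hy : y < 2 ^ (2 ^ a)) :
    nimMul x y = lev a x y := by
  unfold nimMul
  have hx' : x < 2 ^ (2 ^ (x + y)) := lt_of_lt_of_le (lt_pow_pow x) (pow_mono (by omega))
  have hy' : y < 2 ^ (2 ^ (x + y)) := lt_of_lt_of_le (lt_pow_pow y) (pow_mono (by omega))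
  rw [← lev_eq hx' hy' (le_max_left (x + y) a), lev_eq hx hy (le_max_right (x + y) a)]

lemma lev_one (a : ℕ) : ∀ n, n < 2 ^ (2 ^ a) → lev a 1 n = n := by
  induction a with
  | zero =>
    intro n hn
    simp only [lev]
    norm_num at hn
    rw [Nat.mod_eq_of_lt (by omega : n < 2)]
    simp
  | succ a ih =>
    intro n hn
    have h2 : 1 < 2 ^ (2 ^ a) := Nat.one_lt_pow (by positivity) (by norm_num)
    rw [pow_succ_pow] at hn
    have hd : n / 2 ^ (2 ^ a) < 2 ^ (2 ^ a) := Nat.div_lt_of_lt_mul hn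
    rw [lev_succ, Nat.div_eq_of_lt h2, Nat.mod_eq_of_lt h2, lev_zero', lev_zero', lev_zero',
      ih _ hd, ih _ (Nat.mod_lt _ (by positivity))]
    simp [Nat.div_add_mod]

theorem nimMul_isNimProduct : IsNimProduct nimMul where
  fermat_mul := by
    intro a n hn
    have h1 : 2 ^ (2 ^ a) < 2 ^ (2 ^ (a + 1)) := by
      rw [pow_succ_pow]
      have h2 : 1 < 2 ^ (2 ^ a) := Nat.one_lt_pow (by positivity) (by norm_num)
      nlinarith
    rw [nimMul_eq h1 (hn.trans h1), lev_succ, Nat.div_self (by positivity), Nat.mod_self,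
      Nat.div_eq_of_lt hn, Nat.mod_eq_of_lt hn, lev_one a n hn, lev_zero, lev_zero', lev_zero',
      lev_zero']
    simp
  fermat_sq := by
    intro a
    have h2 : 1 < 2 ^ (2 ^ a) := Nat.one_lt_pow (by positivity) (by norm_num)
    have h1 : 2 ^ (2 ^ a) < 2 ^ (2 ^ (a + 1)) := by
      rw [pow_succ_pow]
      nlinarith
    have h3 : 2 ^ (2 ^ a) / 2 < 2 ^ (2 ^ a) := Nat.div_lt_self (by positivity) (by norm_num)
    rw [nimMul_eq h1 h1, lev_succ, Nat.div_self (by positivity), Nat.mod_self,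
      lev_one a 1 h2, lev_zero, lev_zero', lev_zero, lev_one a _ h3]
    have h4 : 2 ^ (2 ^ a) = 2 * 2 ^ (2 ^ a - 1) := by
      rw [← pow_succ']
      congr 1
      have : 0 < 2 ^ a := by positivity
      omega
    rw [Nat.xor_zero, Nat.xor_zero, Nat.zero_xor]
    omega
  comm := by
    intro x y
    unfold nimMul
    rw [lev_comm, add_comm]
  assoc := by
    intro x y z
    set a := x + y + z with ha
    have hx : x < 2 ^ (2 ^ a) := lt_of_lt_of_le (lt_pow_pow x) (pow_mono (by omega))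
    have hy : y < 2 ^ (2 ^ a) := lt_of_lt_of_le (lt_pow_pow y) (pow_mono (by omega))
    have hz : z < 2 ^ (2 ^ a) := lt_of_lt_of_le (lt_pow_pow z) (pow_mono (by omega))
    rw [nimMul_eq hx hy, nimMul_eq (lev_lt a x y) hz, nimMul_eq hy hz,
      nimMul_eq hx (lev_lt a y z), lev_assoc]
  distrib := by
    intro x y z
    set a := x + y + z with ha
    have hx : x < 2 ^ (2 ^ a) := lt_of_lt_of_le (lt_pow_pow x) (pow_mono (by omega))
    have hy : y < 2 ^ (2 ^ a) := lt_of_lt_of_le (lt_pow_pow y) (pow_mono (by omega))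
    have hz : z < 2 ^ (2 ^ a) := lt_of_lt_of_le (lt_pow_pow z) (pow_mono (by omega))
    rw [nimMul_eq hx (Nat.xor_lt_two_pow hy hz), nimMul_eq hx hy, nimMul_eq hx hz, lev_distrib]

/-! ### Consequences of the rules -/

section rules

variable {mul : ℕ → ℕ → ℕ} (h : IsNimProduct mul)

include h

lemma mul_zero_right (x : ℕ) : mul x 0 = 0 := by
  have h1 := h.distrib x 0 0
  rw [Nat.xor_self, Nat.xor_self] at h1
  exact h1

lemma mul_zero_left (x : ℕ) : mul 0 x = 0 := by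
  rw [h.comm, mul_zero_right h]

lemma distrib' (x y z : ℕ) : mul (x ^^^ y) z = mul x z ^^^ mul y z := by
  rw [h.comm, h.distrib, h.comm z x, h.comm z y]

lemma mul_one_one : mul 1 1 = 1 := by
  have h21 : mul 2 1 = 2 := by have := h.fermat_mul 0 1 (by norm_num); simpa using this
  have h22 : mul 2 2 = 3 := by have := h.fermat_sq 0; simpa using this
  have h31 : mul 3 1 = 3 := by
    have := h.assoc 2 2 1
    rw [h22, h21, h22] at this
    exact this
  have h3 : (3 : ℕ) = 2 ^^^ 1 := by decide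
  rw [h3, distrib' h, h21] at h31
  have : 2 ^^^ (2 ^^^ mul 1 1) = 2 ^^^ (2 ^^^ 1) := by rw [h31]
  rw [← Nat.xor_assoc, ← Nat.xor_assoc, Nat.xor_self, Nat.zero_xor, Nat.zero_xor] at this
  exact this

omit h in
lemma half_two (a : ℕ) : 2 ^ (2 ^ a) = 2 * (2 ^ (2 ^ a) / 2) := by
  have h4 : 2 ^ (2 ^ a) = 2 * 2 ^ (2 ^ a - 1) := by
    rw [← pow_succ']
    congr 1
    have : 0 < 2 ^ a := by positivity
    omega
  omega

lemma fermat_sq' (a : ℕ) : mul (2 ^ (2 ^ a)) (2 ^ (2 ^ a)) =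
    2 ^ (2 ^ a) ^^^ (2 ^ (2 ^ a) / 2) := by
  rw [h.fermat_sq]
  have h3 : 2 ^ (2 ^ a) / 2 < 2 ^ (2 ^ a) := Nat.div_lt_self (by positivity) (by norm_num)
  have := join (2 ^ a) 1 _ h3
  rw [mul_one] at this
  rw [this]
  have := half_two a
  omega

/-- Product of two numbers split at a Fermat power. -/
lemma formula (a : ℕ) (hcl : ∀ x y, x < 2 ^ (2 ^ a) → y < 2 ^ (2 ^ a) → mul x y < 2 ^ (2 ^ a))
    {x1 x0 y1 y0 : ℕ} (hx1 : x1 < 2 ^ (2 ^ a)) (hx0 : x0 < 2 ^ (2 ^ a))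
    (hy1 : y1 < 2 ^ (2 ^ a)) (hy0 : y0 < 2 ^ (2 ^ a)) :
    mul (2 ^ (2 ^ a) * x1 ^^^ x0) (2 ^ (2 ^ a) * y1 ^^^ y0) =
      2 ^ (2 ^ a) * (mul x1 y1 ^^^ mul x1 y0 ^^^ mul x0 y1) ^^^
        (mul x0 y0 ^^^ mul (2 ^ (2 ^ a) / 2) (mul x1 y1)) := by
  set F := 2 ^ (2 ^ a) with hF
  have e1 : mul (F * x1) (F * y1) = F * mul x1 y1 ^^^ mul (F / 2) (mul x1 y1) := by
    rw [← h.fermat_mul a x1 hx1, ← h.fermat_mul a y1 hy1, ← h.fermat_mul a _ (hcl _ _ hx1 hy1),
      ← distrib' h, ← hF, ← fermat_sq' h a, ← hF]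
    rw [h.assoc, h.comm x1 (mul F y1), h.assoc, ← h.assoc, h.comm y1 x1]
  have e2 : mul (F * x1) y0 = F * mul x1 y0 := by
    rw [← h.fermat_mul a x1 hx1, ← h.fermat_mul a _ (hcl _ _ hx1 hy0), h.assoc]
  have e3 : mul x0 (F * y1) = F * mul x0 y1 := by
    rw [← h.fermat_mul a y1 hy1, ← h.fermat_mul a _ (hcl _ _ hx0 hy1), h.comm x0, h.assoc,
      h.comm y1]
  rw [distrib' h, h.distrib, h.distrib, e1, e2, e3, hF, mul_xor_pow, mul_xor_pow]
  ac_rfl

lemma closure (a : ℕ) : ∀ x y, x < 2 ^ (2 ^ a) → y < 2 ^ (2 ^ a) → mul x y < 2 ^ (2 ^ a) := by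
  induction a with
  | zero =>
    intro x y hx hy
    norm_num at hx hy
    interval_cases x <;> interval_cases y
    · rw [mul_zero_right h]; norm_num
    · rw [mul_zero_left h]; norm_num
    · rw [mul_zero_right h]; norm_num
    · rw [mul_one_one h]; norm_num
  | succ a ih =>
    intro x y hx hy
    rw [pow_succ_pow] at hx hy
    have hx1 : x / 2 ^ (2 ^ a) < 2 ^ (2 ^ a) := Nat.div_lt_of_lt_mul hx
    have hy1 : y / 2 ^ (2 ^ a) < 2 ^ (2 ^ a) := Nat.div_lt_of_lt_mul hy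
    have hx0 : x % 2 ^ (2 ^ a) < 2 ^ (2 ^ a) := Nat.mod_lt _ (by positivity)
    have hy0 : y % 2 ^ (2 ^ a) < 2 ^ (2 ^ a) := Nat.mod_lt _ (by positivity)
    have h3 : 2 ^ (2 ^ a) / 2 < 2 ^ (2 ^ a) := Nat.div_lt_self (by positivity) (by norm_num)
    rw [split (2 ^ a) x, split (2 ^ a) y, formula h a ih hx1 hx0 hy1 hy0, pow_succ_pow]
    have hA := Nat.xor_lt_two_pow (Nat.xor_lt_two_pow (ih _ _ hx1 hy1) (ih _ _ hx1 hy0))
      (ih _ _ hx0 hy1)
    have hB := Nat.xor_lt_two_pow (ih _ _ hx0 hy0) (ih _ _ h3 (ih _ _ hx1 hy1))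
    rw [join _ _ _ hB]
    revert hA hB
    generalize mul (x / 2 ^ 2 ^ a) (y / 2 ^ 2 ^ a) ^^^ mul (x / 2 ^ 2 ^ a) (y % 2 ^ 2 ^ a) ^^^
      mul (x % 2 ^ 2 ^ a) (y / 2 ^ 2 ^ a) = A
    generalize mul (x % 2 ^ 2 ^ a) (y % 2 ^ 2 ^ a) ^^^
      mul (2 ^ 2 ^ a / 2) (mul (x / 2 ^ 2 ^ a) (y / 2 ^ 2 ^ a)) = Bq
    intro hA hB
    nlinarith

/-- Squaring is additive. -/
lemma sq_add (x y : ℕ) : mul (x ^^^ y) (x ^^^ y) = mul x x ^^^ mul y y := by
  rw [distrib' h, h.distrib, h.distrib, h.comm y x]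
  rw [Nat.xor_assoc, ← Nat.xor_assoc (mul x y), Nat.xor_self, Nat.zero_xor]

/-- The square of a number split at a Fermat power. -/
lemma sq_split (a : ℕ) {x1 x0 : ℕ} (hx1 : x1 < 2 ^ (2 ^ a)) (hx0 : x0 < 2 ^ (2 ^ a)) :
    mul (2 ^ (2 ^ a) * x1 ^^^ x0) (2 ^ (2 ^ a) * x1 ^^^ x0) =
      2 ^ (2 ^ a) * mul x1 x1 ^^^ (mul x0 x0 ^^^ mul (2 ^ (2 ^ a) / 2) (mul x1 x1)) := by
  rw [formula h a (closure h a) hx1 hx0 hx1 hx0, h.comm x0 x1, Nat.xor_assoc (mul x1 x1),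
    Nat.xor_self, Nat.xor_zero]

omit h in
lemma half_succ (a : ℕ) :
    2 ^ (2 ^ (a + 1)) / 2 = 2 ^ (2 ^ a) * (2 ^ (2 ^ a) / 2) ^^^ 0 := by
  rw [Nat.xor_zero, pow_succ_pow]
  have := half_two a
  rw [Nat.mul_div_assoc]
  exact ⟨_, this⟩

omit h in
lemma join_eq_zero {e x1 x0 : ℕ} (hx0 : x0 < 2 ^ e) (h0 : 2 ^ e * x1 ^^^ x0 = 0) :
    x1 = 0 ∧ x0 = 0 := by
  rw [join _ _ _ hx0] at h0
  have : 0 < 2 ^ e := by positivity
  constructor
  · rcases Nat.eq_zero_or_pos x1 with h1 | h1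
    · exact h1
    · have := Nat.mul_pos this h1
      omega
  · omega

/-- The element `2^(2^a) / 2` is not a zero divisor below `2^(2^a)`. -/
lemma half_inj (a : ℕ) : ∀ z < 2 ^ (2 ^ a), mul (2 ^ (2 ^ a) / 2) z = 0 → z = 0 := by
  induction a with
  | zero =>
    intro z hz h0
    norm_num at hz h0
    interval_cases z
    · rfl
    · rw [mul_one_one h] at h0
      exact absurd h0 (by norm_num)
  | succ a ih =>
    intro z hz h0
    rw [pow_succ_pow] at hz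
    have hz1 : z / 2 ^ (2 ^ a) < 2 ^ (2 ^ a) := Nat.div_lt_of_lt_mul hz
    have hz0 : z % 2 ^ (2 ^ a) < 2 ^ (2 ^ a) := Nat.mod_lt _ (by positivity)
    have h3 : 2 ^ (2 ^ a) / 2 < 2 ^ (2 ^ a) := Nat.div_lt_self (by positivity) (by norm_num)
    have hcl := closure h a
    rw [half_succ, split (2 ^ a) z, formula h a hcl h3 (by positivity) hz1 hz0] at h0
    have hlt := Nat.xor_lt_two_pow (hcl _ _ (by positivity : 0 < 2 ^ (2 ^ a)) hz0)
      (hcl _ _ h3 (hcl _ _ h3 hz1))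
    obtain ⟨ha, hb⟩ := join_eq_zero hlt h0
    rw [mul_zero_left h, Nat.zero_xor] at hb
    have hz1' : z / 2 ^ (2 ^ a) = 0 := ih _ hz1 (ih _ (hcl _ _ h3 hz1) hb)
    rw [hz1', mul_zero_right h, mul_zero_left h, Nat.zero_xor, Nat.xor_zero] at ha
    have hz0' : z % 2 ^ (2 ^ a) = 0 := ih _ hz0 ha
    rw [split (2 ^ a) z, hz1', hz0']
    simp

/-- Every nonzero element has a multiple with odd last bit. -/
lemma exists_odd (a : ℕ) : ∀ c < 2 ^ (2 ^ a), c ≠ 0 → ∃ y < 2 ^ (2 ^ a), mul c y % 2 = 1 := by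
  induction a with
  | zero =>
    intro c hc hc0
    norm_num at hc
    interval_cases c
    · exact absurd rfl hc0
    · exact ⟨1, by norm_num, by rw [mul_one_one h]⟩
  | succ a ih =>
    intro c hc hc0
    rw [pow_succ_pow] at hc
    have hc1 : c / 2 ^ (2 ^ a) < 2 ^ (2 ^ a) := Nat.div_lt_of_lt_mul hc
    have hc0' : c % 2 ^ (2 ^ a) < 2 ^ (2 ^ a) := Nat.mod_lt _ (by positivity)
    have h3 : 2 ^ (2 ^ a) / 2 < 2 ^ (2 ^ a) := Nat.div_lt_self (by positivity) (by norm_num)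
    have hcl := closure h a
    have hpos : 0 < 2 ^ (2 ^ a) := by positivity
    have heven : ∀ A : ℕ, (2 ^ (2 ^ a) * A) % 2 = 0 := by
      intro A
      rw [half_two a, mul_assoc]
      exact Nat.mul_mod_right 2 _
    by_cases hcz : c % 2 ^ (2 ^ a) = 0
    · have hc1' : c / 2 ^ (2 ^ a) ≠ 0 := by
        intro h1
        apply hc0
        rw [split (2 ^ a) c, h1, hcz]
        simp
      have hne : mul (2 ^ (2 ^ a) / 2) (c / 2 ^ (2 ^ a)) ≠ 0 :=
        fun h0 => hc1' (half_inj h a _ hc1 h0)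
      obtain ⟨y, hy, hyo⟩ := ih _ (hcl _ _ h3 hc1) hne
      refine ⟨2 ^ (2 ^ a) * y ^^^ 0, ?_, ?_⟩
      · rw [Nat.xor_zero, pow_succ_pow]
        exact Nat.mul_lt_mul_of_pos_left hy hpos
      · rw [split (2 ^ a) c, formula h a hcl hc1 hc0' hy hpos, Nat.xor_mod_two_eq, Nat.add_mod,
          heven, zero_add, Nat.mod_mod, hcz, mul_zero_left h, Nat.zero_xor, ← h.assoc, hyo]
    · obtain ⟨y, hy, hyo⟩ := ih _ hc0' hcz
      refine ⟨2 ^ (2 ^ a) * 0 ^^^ y, ?_, ?_⟩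
      · rw [Nat.mul_zero, Nat.zero_xor, pow_succ_pow]
        exact lt_of_lt_of_le hy (Nat.le_mul_of_pos_left _ hpos)
      · rw [split (2 ^ a) c, formula h a hcl hc1 hc0' hpos hy, Nat.xor_mod_two_eq, Nat.add_mod,
          heven, zero_add, Nat.mod_mod, mul_zero_right h, mul_zero_right h, Nat.xor_zero, hyo]

/-- Squaring has trivial kernel. -/
lemma sq_inj (a : ℕ) : ∀ n < 2 ^ (2 ^ a), mul n n = 0 → n = 0 := by
  induction a with
  | zero =>
    intro z hz h0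
    norm_num at hz h0
    interval_cases z
    · rfl
    · rw [mul_one_one h] at h0
      exact absurd h0 (by norm_num)
  | succ a ih =>
    intro z hz h0
    rw [pow_succ_pow] at hz
    have hz1 : z / 2 ^ (2 ^ a) < 2 ^ (2 ^ a) := Nat.div_lt_of_lt_mul hz
    have hz0 : z % 2 ^ (2 ^ a) < 2 ^ (2 ^ a) := Nat.mod_lt _ (by positivity)
    have h3 : 2 ^ (2 ^ a) / 2 < 2 ^ (2 ^ a) := Nat.div_lt_self (by positivity) (by norm_num)
    have hcl := closure h a
    rw [split (2 ^ a) z, sq_split h a hz1 hz0] at h0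
    have hlt := Nat.xor_lt_two_pow (hcl _ _ hz0 hz0) (hcl _ _ h3 (hcl _ _ hz1 hz1))
    obtain ⟨ha, hb⟩ := join_eq_zero hlt h0
    rw [ha, mul_zero_right h, Nat.xor_zero] at hb
    rw [split (2 ^ a) z, ih _ hz1 ha, ih _ hz0 hb]
    simp

/-- Every element below `2^(2^a)` is a nim square of such an element. -/
lemma sq_surj (a : ℕ) : ∀ y < 2 ^ (2 ^ a), ∃ n < 2 ^ (2 ^ a), mul n n = y := by
  intro y hy
  let f : Fin (2 ^ (2 ^ a)) → Fin (2 ^ (2 ^ a)) :=
    fun n => ⟨mul n n, closure h a _ _ n.2 n.2⟩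
  have hf : Function.Injective f := by
    intro m n hmn
    have h1 : mul (m : ℕ) m = mul (n : ℕ) n := by simpa [f] using hmn
    have h2 : mul ((m : ℕ) ^^^ n) ((m : ℕ) ^^^ n) = 0 := by
      rw [sq_add h, h1, Nat.xor_self]
    have h3 := sq_inj h a _ (Nat.xor_lt_two_pow m.2 n.2) h2
    exact Fin.ext (Nat.xor_eq_zero_iff.1 h3)
  obtain ⟨n, hn⟩ := (Finite.injective_iff_surjective.1 hf) ⟨y, hy⟩
  exact ⟨n, n.2, by simpa [f] using hn⟩

/-- If all squares of powers of two below `2^e` have even product with `c`, so do all squares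
of numbers below `2^e`. -/
lemma even_of_even (c e : ℕ) (hc : ∀ j < e, mul c (mul (2 ^ j) (2 ^ j)) % 2 = 0) :
    ∀ n < 2 ^ e, mul c (mul n n) % 2 = 0 := by
  induction e with
  | zero =>
    intro n hn
    have : n = 0 := by simpa using hn
    subst this
    rw [mul_zero_right h, mul_zero_right h]
  | succ e ih =>
    intro n hn
    have ih' := ih (fun j hj => hc j (by omega))
    by_cases hlt : n < 2 ^ e
    · exact ih' n hlt
    · have h1 : n / 2 ^ e = 1 := by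
        rw [pow_succ] at hn
        apply Nat.div_eq_of_lt_le <;> omega
      have h2 := split e n
      rw [h1, mul_one] at h2
      rw [h2, sq_add h, h.distrib, Nat.xor_mod_two_eq, Nat.add_mod, hc e (by omega),
        ih' _ (Nat.mod_lt _ (by positivity))]

/-- Long runs of even squares. -/
lemma even_run (a j : ℕ) (hj : j < 2 ^ a) :
    mul (2 ^ (2 ^ (a + 1) + j)) (2 ^ (2 ^ (a + 1) + j)) % 2 = 0 := by
  have hG : 2 ^ j < 2 ^ (2 ^ a) := Nat.pow_lt_pow_right (by norm_num) hj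
  have hpos : 0 < 2 ^ (2 ^ a) := by positivity
  have hpos' : 0 < 2 ^ (2 ^ (a + 1)) := by positivity
  have hF : 2 ^ j < 2 ^ (2 ^ (a + 1)) := lt_of_lt_of_le hG (pow_mono (by omega))
  have h3 : 2 ^ (2 ^ a) / 2 < 2 ^ (2 ^ a) := Nat.div_lt_self (by positivity) (by norm_num)
  have hcl := closure h a
  have heven : ∀ (b A : ℕ), (2 ^ (2 ^ b) * A) % 2 = 0 := by
    intro b A
    rw [half_two b, mul_assoc]
    exact Nat.mul_mod_right 2 _
  have hy : mul (2 ^ j) (2 ^ j) < 2 ^ (2 ^ a) := hcl _ _ hG hG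
  have e1 := sq_split h (a + 1) hF hpos'
  rw [Nat.xor_zero, ← pow_add] at e1
  rw [e1, mul_zero_left h, Nat.zero_xor, Nat.xor_mod_two_eq, Nat.add_mod, heven, zero_add,
    Nat.mod_mod, half_succ]
  have e2 := formula h a hcl h3 hpos hpos hy
  rw [Nat.mul_zero, Nat.zero_xor] at e2
  rw [e2, Nat.xor_mod_two_eq, Nat.add_mod, heven, zero_add, Nat.mod_mod, mul_zero_left h,
    mul_zero_right h, mul_zero_right h, Nat.xor_zero]

/-- In every dyadic block of exponents there is an odd square. -/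
lemma exists_odd_sq (a : ℕ) : ∃ j < 2 ^ a, mul (2 ^ (2 ^ a + j)) (2 ^ (2 ^ a + j)) % 2 = 1 := by
  have h3 : 2 ^ (2 ^ a) / 2 < 2 ^ (2 ^ a) := Nat.div_lt_self (by positivity) (by norm_num)
  have hne : 2 ^ (2 ^ a) / 2 ≠ 0 := by
    have h1 := half_two a
    have h2 : 0 < 2 ^ (2 ^ a) := by positivity
    omega
  obtain ⟨y, hy, hyo⟩ := exists_odd h a _ h3 hne
  obtain ⟨n, hn, rfl⟩ := sq_surj h a y hy
  by_contra hcon
  push Not at hcon
  have hev : ∀ j < 2 ^ a, mul (2 ^ (2 ^ a) / 2) (mul (2 ^ j) (2 ^ j)) % 2 = 0 := by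
    intro j hj
    have hpos : 0 < 2 ^ (2 ^ a) := by positivity
    have hF : 2 ^ j < 2 ^ (2 ^ a) := Nat.pow_lt_pow_right (by norm_num) hj
    have e1 := sq_split h a hF hpos
    rw [Nat.xor_zero, ← pow_add] at e1
    have h1 := hcon j hj
    rw [e1, mul_zero_left h, Nat.zero_xor, Nat.xor_mod_two_eq, Nat.add_mod] at h1
    have heven : (2 ^ (2 ^ a) * mul (2 ^ j) (2 ^ j)) % 2 = 0 := by
      rw [half_two a, mul_assoc]
      exact Nat.mul_mod_right 2 _
    rw [heven] at h1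
    omega
  have := even_of_even h _ _ hev n hn
  omega

end rules

/-- The rules determine the operation. -/
lemma nim_unique {mul mul' : ℕ → ℕ → ℕ} (h : IsNimProduct mul) (h' : IsNimProduct mul') :
    mul = mul' := by
  have key : ∀ a x y, x < 2 ^ (2 ^ a) → y < 2 ^ (2 ^ a) → mul x y = mul' x y := by
    intro a
    induction a with
    | zero =>
      intro x y hx hy
      norm_num at hx hy
      interval_cases x <;> interval_cases y
      · rw [mul_zero_right h, mul_zero_right h']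
      · rw [mul_zero_left h, mul_zero_left h']
      · rw [mul_zero_right h, mul_zero_right h']
      · rw [mul_one_one h, mul_one_one h']
    | succ a ih =>
      intro x y hx hy
      rw [pow_succ_pow] at hx hy
      have hx1 : x / 2 ^ (2 ^ a) < 2 ^ (2 ^ a) := Nat.div_lt_of_lt_mul hx
      have hy1 : y / 2 ^ (2 ^ a) < 2 ^ (2 ^ a) := Nat.div_lt_of_lt_mul hy
      have hx0 : x % 2 ^ (2 ^ a) < 2 ^ (2 ^ a) := Nat.mod_lt _ (by positivity)
      have hy0 : y % 2 ^ (2 ^ a) < 2 ^ (2 ^ a) := Nat.mod_lt _ (by positivity)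
      have h3 : 2 ^ (2 ^ a) / 2 < 2 ^ (2 ^ a) := Nat.div_lt_self (by positivity) (by norm_num)
      rw [split (2 ^ a) x, split (2 ^ a) y, formula h a (closure h a) hx1 hx0 hy1 hy0,
        formula h' a (closure h' a) hx1 hx0 hy1 hy0, ih _ _ hx1 hy1, ih _ _ hx1 hy0,
        ih _ _ hx0 hy1, ih _ _ hx0 hy0, ih _ _ h3 (closure h' a _ _ hx1 hy1)]
  funext x y
  exact key (x + y) x y (lt_of_lt_of_le (lt_pow_pow x) (pow_mono (by omega)))
    (lt_of_lt_of_le (lt_pow_pow y) (pow_mono (by omega)))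

/-! ### 2-regular sequences at powers of two -/

/-- For a 2-regular sequence the values at powers of two are eventually periodic modulo 2. -/
lemma regular_periodic (s : ℕ → ℤ) (hs : TwoRegular s) :
    ∃ k p : ℕ, 0 < p ∧ ∀ j, (2 : ℤ) ∣ s (2 ^ (k + p + j)) - s (2 ^ (k + j)) := by
  obtain ⟨n, g, hg⟩ := Submodule.fg_iff_exists_fin_generating_family.1 hs
  -- the sequences `m ↦ s (2^k m)`
  have hmem : ∀ k : ℕ, ∃ c : Fin n → ℤ, ∑ i, c i • g i = fun m => s (2 ^ k * m) := by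
    intro k
    rw [← Submodule.mem_span_range_iff_exists_fun ℤ, hg]
    apply Submodule.subset_span
    exact ⟨k, 0, by positivity, by simp⟩
  choose c hc using hmem
  obtain ⟨k, k', hne, hkk⟩ := Finite.exists_ne_map_eq_of_infinite
    (fun k => (fun i => ((c k i : ℤ) : ZMod 2) : Fin n → ZMod 2))
  wlog hlt : k < k' generalizing k k' with H
  · exact H k' k hne.symm hkk.symm (by omega)
  refine ⟨k, k' - k, by omega, fun j => ?_⟩
  have hdiv : ∀ i, (2 : ℤ) ∣ c k' i - c k i := by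
    intro i
    have := congrFun hkk i
    have h2 : ((c k' i - c k i : ℤ) : ZMod 2) = 0 := by
      push_cast
      rw [sub_eq_zero]
      exact this.symm
    exact (ZMod.intCast_zmod_eq_zero_iff_dvd _ 2).1 h2
  have e1 := congrFun (hc k') (2 ^ j)
  have e2 := congrFun (hc k) (2 ^ j)
  rw [← pow_add] at e1 e2
  have e3 : k + (k' - k) + j = k' + j := by omega
  rw [e3, ← e1, ← e2]
  simp only [Finset.sum_apply, Pi.smul_apply, smul_eq_mul]
  rw [← Finset.sum_sub_distrib]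
  apply Finset.dvd_sum
  intro i _
  rw [← sub_mul]
  exact Dvd.dvd.mul_right (hdiv i) _

/-- There is exactly one operation satisfying the rules of the nim product, and the sequence
of its squares is not 2-regular. -/
theorem result : (∃! mul : ℕ → ℕ → ℕ, IsNimProduct mul) ∧
    ∀ mul : ℕ → ℕ → ℕ, IsNimProduct mul → ¬ TwoRegular (fun n => (mul n n : ℤ)) := by
  refine ⟨⟨nimMul, nimMul_isNimProduct, fun mul h => nim_unique h nimMul_isNimProduct⟩,
    fun mul h hreg => ?_⟩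
  obtain ⟨k, p, hp, hper⟩ := regular_periodic _ hreg
  set g : ℕ → ℕ := fun k => mul (2 ^ k) (2 ^ k) % 2 with hg
  have hper' : ∀ j, g (k + p + j) = g (k + j) := by
    intro j
    have h1 : (2 : ℤ) ∣ (mul (2 ^ (k + p + j)) (2 ^ (k + p + j)) : ℤ) -
      (mul (2 ^ (k + j)) (2 ^ (k + j)) : ℤ) := hper j
    simp only [hg]
    omega
  -- the run of zeros of length larger than the period
  have hper2 : ∀ q j, g (k + j + p * q) = g (k + j) := by
    intro q
    induction q with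
    | zero => intro j; simp
    | succ q ih =>
      intro j
      have h1 := hper' (j + p * q)
      rw [← ih j, show k + j + p * q = k + (j + p * q) by ring, ← h1]
      congr 1
      ring
  set a := k + p with ha
  have hbig : a < 2 ^ a := Nat.lt_two_pow_self
  have hzero : ∀ j, g (k + j) = 0 := by
    intro j
    -- choose a representative in the run
    have hbig' : k ≤ 2 ^ (a + 1) := by rw [pow_succ]; omega
    obtain ⟨q, r, hr, hq⟩ : ∃ q r : ℕ, r < p ∧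
        k + j + p * q = 2 ^ (a + 1) + r + p * ((k + j) / p) := by
      refine ⟨?_, ?_⟩
      · exact (2 ^ (a + 1) + p - (k + j) % p - 1) / p + 0
      · refine ⟨?_, ?_, ?_⟩
        · exact (k + j) % p + p * ((2 ^ (a + 1) + p - (k + j) % p - 1) / p) - 2 ^ (a + 1)
        · have h1 : (k + j) % p < p := Nat.mod_lt _ hp
          have h2 := Nat.div_add_mod (2 ^ (a + 1) + p - (k + j) % p - 1) p
          have h3 : (2 ^ (a + 1) + p - (k + j) % p - 1) % p < p := Nat.mod_lt _ hp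
          generalize p * ((2 ^ (a + 1) + p - (k + j) % p - 1) / p) = A at *
          omega
        · have h1 : (k + j) % p < p := Nat.mod_lt _ hp
          have h2 := Nat.div_add_mod (2 ^ (a + 1) + p - (k + j) % p - 1) p
          have h3 : (2 ^ (a + 1) + p - (k + j) % p - 1) % p < p := Nat.mod_lt _ hp
          have h4 := Nat.div_add_mod (k + j) p
          rw [add_zero]
          generalize p * ((2 ^ (a + 1) + p - (k + j) % p - 1) / p) = A at *
          generalize p * ((k + j) / p) = A' at *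
          omega
    have e1 := hper2 q j
    have e2 := hper2 ((k + j) / p) (2 ^ (a + 1) + r - k)
    have e3 : k + (2 ^ (a + 1) + r - k) = 2 ^ (a + 1) + r := by omega
    rw [e3, ← hq, e1] at e2
    rw [e2]
    exact even_run h a r (by omega)
  obtain ⟨j, hj, hodd⟩ := exists_odd_sq h a
  have := hzero (2 ^ a + j - k)
  rw [show k + (2 ^ a + j - k) = 2 ^ a + j by omega] at this
  simp only [hg] at this
  omega

end Pool.Agent.Results.MP_68925f_co.NimSquares
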